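import Pool.Agent.H65.BU.Trans
import Pool.Agent.H65.BU.OpDefs
import Pool.Agent.H65.BU.Proj

/-!
# Project BU V2: the averages over the cosets of the finite vertex groups

The lemmas on averages are those of H65/BU/Proj (written by helper3), for the vertex groups of a subset `F`; `P v = 0` for
the other vertices.
-/

set_option autoImplicit false

open Finset

namespace Pool.Agent.H93.BM

open Pool.Agent.H65.BU

section general

variable {A : Type}

private theorem two_toReal : (2 : ENNReal).toReal = 2 := by norm_num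

private theorem memlp_of_summable (F : A → ℂ) (h : Summable fun g => ‖F g‖ ^ 2) : Memℓp F 2 := by
  refine memℓp_gen ?_
  rw [two_toReal]
  have h1 : (fun g => ‖F g‖ ^ (2 : ℝ)) = fun g => ‖F g‖ ^ 2 := by
    funext g
    exact Real.rpow_two _
  rw [h1]
  exact h

private theorem summable_sq (f : lp (fun _ : A => ℂ) 2) : Summable fun g => ‖f g‖ ^ 2 := by
  have h := (lp.memℓp f).summable (by rw [two_toReal]; norm_num)
  rw [two_toReal] at h
  have h1 : (fun g => ‖f g‖ ^ (2 : ℝ)) = fun g => ‖f g‖ ^ 2 := by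
    funext g
    exact Real.rpow_two _
  rwa [h1] at h

private theorem norm_sq_eq (f : lp (fun _ : A => ℂ) 2) : ‖f‖ ^ 2 = ∑' g, ‖f g‖ ^ 2 := by
  have h := lp.norm_rpow_eq_tsum (p := 2) (by rw [two_toReal]; norm_num) f
  rw [two_toReal] at h
  have h1 : (fun g => ‖f g‖ ^ (2 : ℝ)) = fun g => ‖f g‖ ^ 2 := by
    funext g
    exact Real.rpow_two _
  rw [h1, Real.rpow_two] at h
  exact h

variable [Group A]

/-- the sum over a group is the mean of the sums over the cosets -/
private theorem tsum_coset {B : Type} [Fintype B] (i : B → A) (F : A → ℝ) (hF : Summable F) :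
    ∑' g, ∑ h, F (g * i h) = (Fintype.card B : ℝ) * ∑' g, F g := by
  have h1 : ∀ h : B, Summable fun g => F (g * i h) := fun h =>
    ((Equiv.mulRight (i h)).summable_iff (f := F)).2 hF
  have h3 : ∀ h : B, ∑' g, F (g * i h) = ∑' g, F g := fun h =>
    (Equiv.mulRight (i h)).tsum_eq F
  rw [Summable.tsum_finsetSum (fun h _ => h1 h), Finset.sum_congr rfl (fun h _ => h3 h),
    Finset.sum_const, nsmul_eq_mul, Finset.card_univ]

private theorem summable_coset {B : Type} [Fintype B] (i : B → A) (F : A → ℝ) (hF : Summable F) :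
    Summable fun g => ∑ h, F (g * i h) :=
  summable_sum fun h _ => ((Equiv.mulRight (i h)).summable_iff (f := F)).2 hF

/-- translation on the right -/
private noncomputable def rt (x : A) : lp (fun _ : A => ℂ) 2 →L[ℂ] lp (fun _ : A => ℂ) 2 :=
  LinearMap.mkContinuous
    { toFun := fun f => ⟨fun g => f (g * x), memlp_of_summable _
        (((Equiv.mulRight x).summable_iff (f := fun g => ‖f g‖ ^ 2)).2 (summable_sq f))⟩
      map_add' := fun f f' => by
        apply Subtype.ext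
        funext g
        rfl
      map_smul' := fun c f => by
        apply Subtype.ext
        funext g
        rfl } 1 (by
      intro f
      rw [one_mul]
      refine le_of_sq_le_sq ?_ (norm_nonneg _)
      rw [norm_sq_eq, norm_sq_eq]
      exact le_of_eq ((Equiv.mulRight x).tsum_eq fun g => ‖f g‖ ^ 2))

private theorem rt_apply (x : A) (f : lp (fun _ : A => ℂ) 2) (g : A) : rt x f g = f (g * x) := rfl

private theorem rt_norm (x : A) : ‖rt x‖ ≤ 1 :=
  LinearMap.mkContinuous_norm_le _ zero_le_one _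

/-- the mean over the cosets of a finite family of translations -/
private noncomputable def av {B : Type} [Fintype B] (i : B → A) :
    lp (fun _ : A => ℂ) 2 →L[ℂ] lp (fun _ : A => ℂ) 2 :=
  (Fintype.card B : ℂ)⁻¹ • ∑ h, rt (i h)

private theorem av_apply {B : Type} [Fintype B] (i : B → A) (f : lp (fun _ : A => ℂ) 2) (g : A) :
    av i f g = (Fintype.card B : ℂ)⁻¹ * ∑ h, f (g * i h) := by
  unfold av
  rw [smul_apply, _root_.sum_apply, lp.coeFn_smul, Pi.smul_apply,
    lp.coeFn_sum, Finset.sum_apply, smul_eq_mul]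
  rfl

private theorem av_norm {B : Type} [Fintype B] [Nonempty B] (i : B → A) : ‖av i‖ ≤ 1 := by
  unfold av
  have hc : (0 : ℝ) < Fintype.card B := by exact_mod_cast Fintype.card_pos
  rw [norm_smul, norm_inv, Complex.norm_natCast]
  have h1 : ‖∑ h, rt (i h)‖ ≤ (Fintype.card B : ℝ) := by
    refine (norm_sum_le _ _).trans ?_
    refine (Finset.sum_le_sum (fun h _ => rt_norm (i h))).trans ?_
    rw [Finset.sum_const, nsmul_eq_mul, Finset.card_univ, mul_one]
  calc (Fintype.card B : ℝ)⁻¹ * ‖∑ h, rt (i h)‖ ≤ (Fintype.card B : ℝ)⁻¹ * (Fintype.card B : ℝ) :=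
        mul_le_mul_of_nonneg_left h1 (inv_nonneg.2 hc.le)
    _ = 1 := inv_mul_cancel₀ hc.ne'

/-- a function which has exactly one value different from zero on every coset becomes small -/
private theorem av_small {B : Type} [Fintype B] [Nonempty B] (i : B → A) (X : Set A)
    (hX : ∀ g, ∃! h : B, g * i h ∈ X) (f : lp (fun _ : A => ℂ) 2) (hf : ∀ g, g ∉ X → f g = 0) :
    ‖av i f‖ ≤ (Real.sqrt (Fintype.card B))⁻¹ * ‖f‖ := by
  have hc : (0 : ℝ) < Fintype.card B := by exact_mod_cast Fintype.card_pos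
  refine le_of_sq_le_sq ?_ (mul_nonneg (inv_nonneg.2 (Real.sqrt_nonneg _)) (norm_nonneg _))
  rw [mul_pow, inv_pow, Real.sq_sqrt hc.le, norm_sq_eq, norm_sq_eq]
  have h1 : ∀ g, ‖av i f g‖ ^ 2 =
      ((Fintype.card B : ℝ)⁻¹ * (Fintype.card B : ℝ)⁻¹) * ∑ h, ‖f (g * i h)‖ ^ 2 := by
    intro g
    obtain ⟨h0, hh0, huniq⟩ := hX g
    have h2 : ∀ h, h ≠ h0 → f (g * i h) = 0 := fun h hh => hf _ fun h3 => hh (huniq h h3)
    rw [av_apply, Finset.sum_eq_single h0 (fun h _ hh => h2 h hh)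
      (fun h => absurd (Finset.mem_univ _) h),
      Finset.sum_eq_single h0 (fun h _ hh => by rw [h2 h hh, norm_zero]; norm_num)
      (fun h => absurd (Finset.mem_univ _) h), norm_mul, norm_inv, Complex.norm_natCast, mul_pow,
      inv_pow, sq, mul_inv]
  rw [tsum_congr h1, tsum_mul_left, tsum_coset i (fun g => ‖f g‖ ^ 2) (summable_sq f),
    ← mul_assoc, mul_assoc ((Fintype.card B : ℝ)⁻¹), inv_mul_cancel₀ hc.ne', mul_one]

/-- a function which is constant on the cosets is small on a set with at most one point in every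
coset -/
private theorem restrict_small {B : Type} [Fintype B] [Nonempty B] (i : B → A) (X : Set A)
    (hX : ∀ g (h h' : B), g * i h ∈ X → g * i h' ∈ X → h = h') (f f' : lp (fun _ : A => ℂ) 2)
    (hf : ∀ g h, f (g * i h) = f g) (hf' : ∀ g, g ∈ X → f' g = f g)
    (hf0 : ∀ g, g ∉ X → f' g = 0) :
    ‖f'‖ ≤ (Real.sqrt (Fintype.card B))⁻¹ * ‖f‖ := by
  classical
  have hc : (0 : ℝ) < Fintype.card B := by exact_mod_cast Fintype.card_pos
  refine le_of_sq_le_sq ?_ (mul_nonneg (inv_nonneg.2 (Real.sqrt_nonneg _)) (norm_nonneg _))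
  rw [mul_pow, inv_pow, Real.sq_sqrt hc.le, norm_sq_eq, norm_sq_eq]
  have h1 := tsum_coset i (fun g => ‖f' g‖ ^ 2) (summable_sq f')
  have h2 : ∀ g, ∑ h, ‖f' (g * i h)‖ ^ 2 ≤ ‖f g‖ ^ 2 := by
    intro g
    by_cases hg : ∃ h0, g * i h0 ∈ X
    · obtain ⟨h0, hh0⟩ := hg
      rw [Finset.sum_eq_single h0 (fun h _ hh => by
        rw [hf0 _ fun h3 => hh (hX g h h0 h3 hh0), norm_zero]; norm_num)
        (fun h => absurd (Finset.mem_univ _) h), hf' _ hh0, hf]
    · push Not at hg
      rw [Finset.sum_eq_zero (fun h _ => by rw [hf0 _ (hg h), norm_zero]; norm_num)]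
      positivity
  have h3 : ∑' g, ∑ h, ‖f' (g * i h)‖ ^ 2 ≤ ∑' g, ‖f g‖ ^ 2 :=
    Summable.tsum_le_tsum h2 (summable_coset i (fun g => ‖f' g‖ ^ 2) (summable_sq f'))
      (summable_sq f)
  rw [h1] at h3
  calc ∑' g, ‖f' g‖ ^ 2 = (Fintype.card B : ℝ)⁻¹ * ((Fintype.card B : ℝ) * ∑' g, ‖f' g‖ ^ 2) := by
        rw [← mul_assoc, inv_mul_cancel₀ hc.ne', one_mul]
    _ ≤ _ := mul_le_mul_of_nonneg_left h3 (inv_nonneg.2 hc.le)

omit [Group A] in
/-- the restriction to a subset -/
private theorem exists_restrict (X : Set A) (f : lp (fun _ : A => ℂ) 2) :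
    ∃ f₁ f₂ : lp (fun _ : A => ℂ) 2, f = f₁ + f₂ ∧ (∀ g, g ∉ X → f₁ g = 0) ∧
      (∀ g, g ∉ X → f₂ g = f g) ∧ (∀ g, g ∈ X → f₂ g = 0) ∧ ‖f₁‖ ≤ ‖f‖ := by
  classical
  have hs : Summable fun g => ‖(if g ∈ X then f g else 0 : ℂ)‖ ^ 2 := by
    refine Summable.of_nonneg_of_le (fun g => sq_nonneg _) (fun g => ?_) (summable_sq f)
    by_cases hg : g ∈ X
    · rw [if_pos hg]
    · rw [if_neg hg, norm_zero, zero_pow two_ne_zero]
      exact sq_nonneg _
  obtain ⟨f₁, h1⟩ : ∃ f₁ : lp (fun _ : A => ℂ) 2, ∀ g, f₁ g = if g ∈ X then f g else 0 :=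
    ⟨⟨fun g => if g ∈ X then f g else 0, memlp_of_summable _ hs⟩, fun _ => rfl⟩
  have h2 : ∀ g, (f - f₁) g = f g - f₁ g := fun g => rfl
  refine ⟨f₁, f - f₁, by abel, ?_, ?_, ?_, ?_⟩
  · intro g hg
    rw [h1, if_neg hg]
  · intro g hg
    rw [h2, h1, if_neg hg, sub_zero]
  · intro g hg
    rw [h2, h1, if_pos hg, sub_self]
  · refine le_of_sq_le_sq ?_ (norm_nonneg _)
    rw [norm_sq_eq, norm_sq_eq]
    refine Summable.tsum_le_tsum (fun g => ?_) (summable_sq f₁) (summable_sq f)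
    rw [h1]
    by_cases hg : g ∈ X
    · rw [if_pos hg]
    · rw [if_neg hg, norm_zero, zero_pow two_ne_zero]
      exact sq_nonneg _

/-- means over two families of cosets in general position -/
private theorem av_mul_small {B C : Type} [Fintype B] [Nonempty B] [Fintype C] [Nonempty C]
    (i : B → A) (j : C → A) (X : Set A) (hX : ∀ g, ∃! h : B, g * i h ∈ X)
    (hX' : ∀ g (h h' : C), g * j h ∉ X → g * j h' ∉ X → h = h')
    (hj : ∀ (f : lp (fun _ : A => ℂ) 2) g h, av j f (g * j h) = av j f g) {ε : ℝ}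
    (h1 : (Real.sqrt (Fintype.card B))⁻¹ ≤ ε / 2) (h2 : (Real.sqrt (Fintype.card C))⁻¹ ≤ ε / 2) :
    ‖av i * av j‖ ≤ ε := by
  have hε : 0 ≤ ε / 2 := (inv_nonneg.2 (Real.sqrt_nonneg _)).trans h1
  have hε' : 0 ≤ ε := by linarith
  refine ContinuousLinearMap.opNorm_le_bound _ hε' fun f => ?_
  rw [mul_apply_eq_comp]
  obtain ⟨f₁, f₂, hf, hf1, hf2, hf2', hn⟩ := exists_restrict X (av j f)
  have h3 : ‖av j f‖ ≤ ‖f‖ := by
    refine ((av j).le_opNorm f).trans ?_
    calc ‖av j‖ * ‖f‖ ≤ 1 * ‖f‖ := mul_le_mul_of_nonneg_right (av_norm j) (norm_nonneg _)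
      _ = ‖f‖ := one_mul _
  have h4 : ‖av i f₁‖ ≤ ε / 2 * ‖f‖ := by
    refine (av_small i X hX f₁ hf1).trans ?_
    exact mul_le_mul h1 (hn.trans h3) (norm_nonneg _) hε
  have h5 : ‖f₂‖ ≤ ε / 2 * ‖f‖ := by
    refine (restrict_small j Xᶜ (fun g h h' hh hh' => hX' g h h' hh hh') (av j f) f₂ (hj f)
      (fun g hg => hf2 g hg) (fun g hg => hf2' g (not_not.1 hg))).trans ?_
    exact mul_le_mul h2 h3 (norm_nonneg _) hε
  have h6 : ‖av i f₂‖ ≤ ε / 2 * ‖f‖ := by
    refine ((av i).le_opNorm f₂).trans ?_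
    calc ‖av i‖ * ‖f₂‖ ≤ 1 * ‖f₂‖ := mul_le_mul_of_nonneg_right (av_norm i) (norm_nonneg _)
      _ = ‖f₂‖ := one_mul _
      _ ≤ _ := h5
  rw [hf, map_add]
  calc ‖av i f₁ + av i f₂‖ ≤ ‖av i f₁‖ + ‖av i f₂‖ := norm_add_le _ _
    _ ≤ ε / 2 * ‖f‖ + ε / 2 * ‖f‖ := add_le_add h4 h6
    _ = ε * ‖f‖ := by ring

end general


section GPav

variable {V : Type} {G : SimpleGraph V} {Γ : V → Type} [∀ v, Group (Γ v)]

private theorem avg_const {v : V} [Fintype (Γ v)] (f : LG G Γ) (g : GP G Γ) (h : Γ v) :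
    av (fun h : Γ v => io G h) f (g * io G h) = av (fun h : Γ v => io G h) f g := by
  rw [av_apply, av_apply]
  congr 1
  refine (Fintype.sum_equiv (Equiv.mulLeft h) _ _ fun k => ?_)
  show f (g * io G h * io G k) = f (g * io G (h * k))
  rw [map_mul, mul_assoc]

private theorem avg_idem {v : V} [Fintype (Γ v)] :
    (av (fun h : Γ v => io G h) : LG G Γ →L[ℂ] LG G Γ) * av (fun h : Γ v => io G h) =
      av (fun h : Γ v => io G h) := by
  have hc : (Fintype.card (Γ v) : ℂ) ≠ 0 := by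
    exact_mod_cast (Fintype.card_pos (α := Γ v)).ne'
  refine ContinuousLinearMap.ext fun f => ?_
  apply Subtype.ext
  funext g
  show av (fun h : Γ v => io G h) (av (fun h : Γ v => io G h) f) g = av (fun h : Γ v => io G h) f g
  rw [av_apply, Finset.sum_congr rfl (fun h _ => avg_const f g h), Finset.sum_const, nsmul_eq_mul,
    Finset.card_univ, ← mul_assoc, inv_mul_cancel₀ hc, one_mul]

private theorem avg_comm {u v : V} [Fintype (Γ u)] [Fintype (Γ v)] (huv : G.Adj u v) :
    (av (fun h : Γ u => io G h) : LG G Γ →L[ℂ] LG G Γ) * av (fun h : Γ v => io G h) =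
      av (fun h : Γ v => io G h) * av (fun h : Γ u => io G h) := by
  refine ContinuousLinearMap.ext fun f => ?_
  apply Subtype.ext
  funext g
  show av (fun h : Γ u => io G h) (av (fun h : Γ v => io G h) f) g =
    av (fun h : Γ v => io G h) (av (fun h : Γ u => io G h) f) g
  rw [av_apply, av_apply]
  simp only [av_apply, Finset.mul_sum]
  rw [Finset.sum_comm]
  refine Finset.sum_congr rfl fun h _ => Finset.sum_congr rfl fun k _ => ?_
  rw [mul_assoc g (io G k), io_comm huv k h, ← mul_assoc g, ← mul_assoc, ← mul_assoc,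
    mul_comm (Fintype.card (Γ u) : ℂ)⁻¹]

private theorem avg_small {u v : V} [Fintype (Γ u)] [Fintype (Γ v)] (huv : u ≠ v)
    (hn : ¬ G.Adj u v) {ε : ℝ} (h1 : (Real.sqrt (Fintype.card (Γ u)))⁻¹ ≤ ε / 2)
    (h2 : (Real.sqrt (Fintype.card (Γ v)))⁻¹ ≤ ε / 2) :
    ‖(av (fun h : Γ u => io G h) : LG G Γ →L[ℂ] LG G Γ) * av (fun h : Γ v => io G h)‖ ≤ ε := by
  obtain ⟨X, hX1, hX2⟩ := exists_trans (Γ := Γ) huv hn
  exact av_mul_small _ _ X hX1 hX2 (fun f g h => avg_const f g h) h1 h2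

end GPav

/-- the projections for the vertices of `F`, 0 for the other vertices -/
theorem exists_projM {V : Type} [DecidableEq V] (G : SimpleGraph V) (Γ : V → Type)
    [∀ v, Group (Γ v)] (F : Finset V) (hF : ∀ v ∈ F, Finite (Γ v)) :
    ∃ P : V → (LG G Γ →L[ℂ] LG G Γ),
      (∀ v ∈ F, ∀ f g, P v f g = (Nat.card (Γ v) : ℂ)⁻¹ * ∑ᶠ h : Γ v, f (g * io G h)) ∧
      (∀ v ∉ F, P v = 0) ∧
      ∀ ε : ℝ, 0 ≤ ε → (∀ v ∈ F, (Real.sqrt (Nat.card (Γ v)))⁻¹ ≤ ε / 2) → Small G P ε := by
  have hFt : ∀ v ∈ F, Nonempty (Fintype (Γ v)) := fun v hv => by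
    have := hF v hv
    exact ⟨Fintype.ofFinite (Γ v)⟩
  let P : V → (LG G Γ →L[ℂ] LG G Γ) := fun v =>
    if hv : v ∈ F then @av (GP G Γ) _ (Γ v) (hFt v hv).some (fun h => io G h) else 0
  have hP1 : ∀ v (hv : v ∈ F), P v = @av (GP G Γ) _ (Γ v) (hFt v hv).some (fun h => io G h) :=
    fun v hv => dif_pos hv
  have hP0 : ∀ v ∉ F, P v = 0 := fun v hv => dif_neg hv
  refine ⟨P, fun v hv f g => ?_, hP0, fun ε hε hs => ?_⟩
  · let _ := (hFt v hv).some
    rw [hP1 v hv]
    have h1 := av_apply (fun h : Γ v => io G h) f g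
    rw [h1, Nat.card_eq_fintype_card, finsum_eq_sum_of_fintype]
  · refine ⟨fun v => ?_, fun v => ?_, fun u v huv => ?_, fun u v huv hn => ?_⟩
    · by_cases hv : v ∈ F
      · let _ := (hFt v hv).some
        rw [hP1 v hv]
        exact av_norm _
      · rw [hP0 v hv, norm_zero]
        exact zero_le_one
    · by_cases hv : v ∈ F
      · let _ := (hFt v hv).some
        rw [hP1 v hv]
        exact avg_idem
      · rw [hP0 v hv, mul_zero]
    · by_cases hu : u ∈ F
      · by_cases hv : v ∈ F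
        · let _ := (hFt u hu).some
          let _ := (hFt v hv).some
          rw [hP1 u hu, hP1 v hv]
          exact avg_comm huv
        · rw [hP0 v hv, mul_zero, zero_mul]
      · rw [hP0 u hu, mul_zero, zero_mul]
    · by_cases hu : u ∈ F
      · by_cases hv : v ∈ F
        · let _ := (hFt u hu).some
          let _ := (hFt v hv).some
          rw [hP1 u hu, hP1 v hv]
          refine avg_small huv hn ?_ ?_
          · rw [← Nat.card_eq_fintype_card]
            exact hs u hu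
          · rw [← Nat.card_eq_fintype_card]
            exact hs v hv
        · rw [hP0 v hv, mul_zero, norm_zero]
          exact hε
      · rw [hP0 u hu, zero_mul, norm_zero]
        exact hε

end Pool.Agent.H93.BM
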