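import Pool.Agent.H85.DV.MixDefs
import Pool.Agent.H65.BU.Ler
import Pool.Agent.H93.BM.ProjM

/-!
# Project BU V2: exactness of the reduced chains, mixed vertex groups, no largeness

`exact_of_idem` (helper10) with the averages over the cosets of the finite vertex groups and 0 for the other vertices.
-/

set_option autoImplicit false
set_option linter.unusedSectionVars false

open Finset

namespace Pool.Agent.H93.BM

open Pool.Agent.H78.RA Pool.Agent.H65.BU

private theorem exn_cast {V : Type} [DecidableEq V] (ν : V → ℕ) (T : Finset V) (v : V) :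
    ((sg ν T v : ℤ) : ℂ) = H85.DV.sg ν T v := by
  unfold sg H85.DV.sg
  push_cast
  rfl

private theorem exn_two : (2 : ENNReal).toReal = ((2 : ℕ) : ℝ) := by norm_num

private theorem exn_memlp {X : Type} {f : X → ℂ} (h : Summable fun g => ‖f g‖ ^ 2) :
    Memℓp f 2 := by
  rw [memℓp_gen_iff (by norm_num)]
  simpa only [exn_two, Real.rpow_natCast] using h

private theorem exn_summable {X : Type} {f : X → ℂ} (h : Memℓp f 2) :
    Summable fun g => ‖f g‖ ^ 2 := by
  rw [memℓp_gen_iff (by norm_num)] at h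
  simpa only [exn_two, Real.rpow_natCast] using h

/-- **Exactness of the reduced chains, mixed vertex groups, no largeness.** -/
theorem exM_of_ex {V : Type} [Fintype V] [DecidableEq V] (G : SimpleGraph V) (F : Finset V)
    (Γ : V → Type) [∀ v, Group (Γ v)] (hF : ∀ v ∈ F, Finite (Γ v)) {ν : V → ℕ}
    (hν : Function.Injective ν) (i : ℕ)
    (hG : ∀ A : Finset V, Ex ℂ ν (PP G A i) (PP G A (i + 1))) (z : Finset V → GP G Γ → ℂ)
    (hz : H85.DV.IsMixModel G F (fun v => (io G : Γ v →* GP G Γ)) i z)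
    (hb : ∀ T g, H85.DV.bdMod ν z T g = 0) : ∃ y : Finset V → GP G Γ → ℂ,
      H85.DV.IsMixModel G F (fun v => (io G : Γ v →* GP G Γ)) (i + 1) y ∧
        ∀ T g, H85.DV.bdMod ν y T g = z T g := by
  obtain ⟨P, hP, hP0, hPs⟩ := exists_projM G Γ F hF
  have hsmall : Small G P 2 := by
    refine hPs 2 (by norm_num) fun v hv => ?_
    have := hF v hv
    have h1 : (1 : ℝ) ≤ (Nat.card (Γ v) : ℝ) := by
      exact_mod_cast (Nat.card_pos (α := Γ v))
    have h2 : (1 : ℝ) ≤ Real.sqrt (Nat.card (Γ v)) := Real.one_le_sqrt.2 h1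
    have h3 : (Real.sqrt (Nat.card (Γ v)))⁻¹ ≤ 1 := inv_le_one_of_one_le₀ h2
    linarith
  have hval : ∀ T g, ((⟨z T, exn_memlp (hz.l2 T)⟩ : LG G Γ) : GP G Γ → ℂ) g = z T g :=
    fun T g => rfl
  obtain ⟨y, hy1, hy2, hy3⟩ := exact_of_idem G hν i hG (fun v => (P v).toLinearMap)
    (fun v x => by
      have h1 := congrArg (fun Q : LG G Γ →L[ℂ] LG G Γ => Q x) (hsmall.idem v)
      exact h1)
    (fun u v huv x => by
      have h1 := congrArg (fun Q : LG G Γ →L[ℂ] LG G Γ => Q x) (hsmall.comm u v huv)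
      exact h1)
    (fun T => (⟨z T, exn_memlp (hz.l2 T)⟩ : LG G Γ))
    (fun T hT => by
      by_contra h0
      refine hT (lp.ext (funext fun g => ?_))
      rw [hval]
      by_contra h1
      exact h0 (hz.supp T g h1))
    (fun T v hv => by
      by_cases hvF : v ∈ F
      · refine lp.ext (funext fun g => ?_)
        show (P v _ : LG G Γ) g = _
        rw [hP v hvF]
        rw [hz.mean T v hv hvF g, mul_zero]
        rfl
      · show P v _ = 0
        rw [hP0 v hvF]
        rfl)
    (by
      funext T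
      refine lp.ext (funext fun g => ?_)
      have h1 := hb T g
      unfold H85.DV.bdMod at h1
      unfold bd
      rw [lp.coeFn_sum, Finset.sum_apply]
      refine Eq.trans (sum_congr rfl fun v _ => ?_) h1
      rw [← exn_cast, ← zsmul_eq_mul]
      rfl)
  refine ⟨fun T g => y T g, ⟨fun T g h => hy1 T fun h0 => h ?_, fun T v hv hvF g => ?_,
    fun T => ?_⟩, fun T g => ?_⟩
  · rw [h0]
    rfl
  · have h1 := hP v hvF (y T) g
    have h5 : P v (y T) = 0 := hy2 T v hv
    rw [h5] at h1
    have h2 : (Nat.card (Γ v) : ℂ) ≠ 0 := by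
      have := hF v hvF
      exact_mod_cast (Nat.card_pos (α := Γ v)).ne'
    have h3 : (Nat.card (Γ v) : ℂ)⁻¹ * ∑ᶠ h : Γ v, y T (g * io G h) = 0 := h1.symm
    exact (mul_eq_zero.1 h3).resolve_left (inv_ne_zero h2)
  · exact exn_summable (lp.memℓp (y T))
  · have h1 : (bd ν y T : LG G Γ) g = z T g := by rw [hy3]
    rw [← h1]
    unfold bd H85.DV.bdMod
    rw [lp.coeFn_sum, Finset.sum_apply]
    refine sum_congr rfl fun v _ => ?_
    rw [← exn_cast, ← zsmul_eq_mul]
    rfl

end Pool.Agent.H93.BM
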