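import Pool.Agent.H85.DV.MixDefs
import Pool.Agent.H3.MX.Fun

/-!
# Project BU V2 (mixed vertex groups): comparison of the two boundaries

PROOF (Theta trick on closed invariant subspaces). `C_j` = the families `(f_T)`, `T` a clique with `j` elements,
`f_T ∈ ℓ²(A)` with mean zero over the cosets `g H_v`, `v ∈ T ∩ F`; a closed invariant subspace of a sum of copies of
`ℓ²(A)`. `α_T` = product over `v ∈ T \ F` of `f ↦ f - f(· t_v⁻¹)`: injective (infinite order), equivariant, maps `C_j` to
`C_j` (`t_v` commutes with `ι u x` for `u ∈ T ∩ F`), and `α (bdMixMod y) = bdMod (α y)`. By `hex` the kernel of `bdMod` on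
`C_i` is the image of `C_(i+1)`; count dimensions (`gdim_le_of_injOn`, `gdim_kr`, `gdim_faithful` of H78/RA/GDim):
`dim ker(bdMixMod, C_i) ≤ dim ker(bdMod, C_i) = dim C_(i+1) - dim ker(bdMod, C_(i+1)) ≤
dim C_(i+1) - dim ker(bdMixMod, C_(i+1))` = dimension of the closure of the image. (Operators on all of `LL κ`: compose with
the orthogonal projection to `C_(i+1)`, whose kernel is its orthogonal complement.) The general theorem is
`approx_mixed` in H3/MX/Fun.
-/

set_option autoImplicit false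

open Finset

namespace Pool.Agent.H93.BM

open Pool.Agent.H85.DV
open Pool.Agent.H4.Atiyah (LL memlp_iff)
open Pool.Agent.H78.RA (Ix BB bd ev ev_ext Faces)
open Pool.Agent.H3.MX

/-- the elements of the finite vertex group, with multiplicities -/
private noncomputable def KK {V A : Type} [DecidableEq V] [Group A] {H : V → Type} [∀ v, Group (H v)] (F : Finset V)
    (ι : ∀ v, H v →* A) (hF : ∀ v ∈ F, Finite (H v)) (v : V) : Multiset A :=
  if h : v ∈ F then (@Finset.univ (H v) (@Fintype.ofFinite _ (hF v h))).val.map (ι v) else 0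

private theorem KK_sum {V A : Type} [DecidableEq V] [Group A] {H : V → Type} [∀ v, Group (H v)]
    {F : Finset V} {ι : ∀ v, H v →* A} (hF : ∀ v ∈ F, Finite (H v)) {v : V} (h : v ∈ F)
    (f : A → ℂ) (g : A) :
    ((KK F ι hF v).map fun a => f (g * a)).sum = ∑ᶠ x : H v, f (g * ι v x) := by
  have := hF v h
  let _ : Fintype (H v) := Fintype.ofFinite _
  unfold KK
  rw [dif_pos h, Multiset.map_map, finsum_eq_sum_of_fintype]
  rfl

private theorem KK_neg {V A : Type} [DecidableEq V] [Group A] {H : V → Type} [∀ v, Group (H v)]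
    {F : Finset V} {ι : ∀ v, H v →* A} (hF : ∀ v ∈ F, Finite (H v)) {v : V} (h : v ∉ F) :
    KK F ι hF v = 0 := dif_neg h

private theorem KK_comm {V A : Type} [DecidableEq V] [Group A] {H : V → Type} [∀ v, Group (H v)]
    {G : SimpleGraph V} {F : Finset V} {ι : ∀ v, H v →* A} {t : V → A}
    (hF : ∀ v ∈ F, Finite (H v))
    (hct : ∀ u v, G.Adj u v → u ∈ F → v ∉ F → ∀ x : H u, Commute (ι u x) (t v)) {u v : V}
    (huv : G.Adj u v) (hv : v ∉ F) (k : A) (hk : k ∈ KK F ι hF u) : k * t v = t v * k := by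
  by_cases hu : u ∈ F
  · unfold KK at hk
    rw [dif_pos hu] at hk
    obtain ⟨x, -, rfl⟩ := Multiset.mem_map.1 hk
    exact hct u v huv hu hv x
  · rw [KK_neg hF hu] at hk
    exact absurd hk (Multiset.notMem_zero k)

/-- the element of `ℓ²` of a function -/
private theorem exists_LL {A : Type} [Group A] (f : A → ℂ) (hf : Summable fun g => ‖f g‖ ^ 2) :
    ∃ x : LL Unit A, ∀ g, x ((), g) = f g := by
  have h : Summable fun p : Unit × A => ‖f p.2‖ ^ 2 :=
    ((Equiv.punitProd A).summable_iff (f := fun g => ‖f g‖ ^ 2)).2 hf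
  exact ⟨⟨fun p => f p.2, (memlp_iff _).2 h⟩, fun _ => rfl⟩

private theorem summable_LL {A : Type} [Group A] (x : LL Unit A) :
    Summable fun g => ‖x ((), g)‖ ^ 2 := by
  have h1 : Summable fun p : Unit × A => ‖x p‖ ^ 2 := (memlp_iff _).1 (lp.memℓp _)
  exact h1.comp_injective (i := fun g : A => ((), g)) (fun a b h => (Prod.ext_iff.1 h).2)

private theorem theta_main {V : Type} [dV : DecidableEq V] [Fintype V] {A : Type} [Group A]
    {H : V → Type} [∀ v, Group (H v)] {G : SimpleGraph V} {F : Finset V} {ι : ∀ v, H v →* A}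
    {t : V → A} {i : ℕ} (hF : ∀ v ∈ F, Finite (H v))
    (hct : ∀ u v, G.Adj u v → u ∈ F → v ∉ F → ∀ x : H u, Commute (ι u x) (t v))
    (htt : ∀ u v, G.Adj u v → u ∉ F → v ∉ F → Commute (t u) (t v))
    (ht : ∀ v, v ∉ F → ∀ n : ℕ, 0 < n → t v ^ n ≠ 1)
    (hex : ∀ ν : V → ℕ, Function.Injective ν → ∀ z : Finset V → A → ℂ, IsMixModel G F ι i z →
      (∀ T g, bdMod ν z T g = 0) → ∃ y : Finset V → A → ℂ, IsMixModel G F ι (i + 1) y ∧
        ∀ T g, bdMod ν y T g = z T g) : L2ZeroMixMod G F ι t i := by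
  have hd : dV = fun a b => Classical.propDecidable (a = b) := Subsingleton.elim _ _
  subst hd
  classical
  intro ν hν z hz hb ε hε
  have hbd : ∀ f : Finset V → A → ℂ, ∀ T g, bdX (fun v => v ∈ F) t ν f T g =
      bdMixMod F t ν f T g := by
    intro f T g
    unfold bdX bdMixMod sg
    refine Finset.sum_congr rfl fun v _ => ?_
    by_cases hv : v ∈ F
    · rw [if_pos hv, if_pos hv]
    · rw [if_neg hv, if_neg hv]
  have hev : ∀ (f : Finset V → LL Unit A) (T : Finset V) (g : A),
      ev g (bd ν f T) = bdMod ν (fun T g => f T ((), g)) T g := by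
    intro f T g
    unfold bd bdMod sg
    rw [map_sum]
    refine Finset.sum_congr rfl fun v _ => ?_
    rw [Pool.Agent.H78.RA.ev_smul]
    unfold Pool.Agent.H78.RA.sg
    push_cast
    rfl
  have hz' : IsKChain (KK F ι hF) (fun σ : Finset V => G.IsClique (σ : Set V) ∧ σ.card = i) z := by
    refine ⟨hz.supp, fun σ v hv g => ?_, hz.l2⟩
    by_cases hvF : v ∈ F
    · rw [KK_sum hF hvF]
      exact hz.mean σ v hv hvF g
    · rw [KK_neg hF hvF, Multiset.map_zero, Multiset.sum_zero]
  have hE : ∀ f : Finset V → LL Unit A,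
      (∀ σ, f σ ≠ 0 → G.IsClique (σ : Set V) ∧ σ.card = i) →
      (∀ σ, ∀ v ∈ σ, Kop (KK F ι hF v) (f σ) = 0) → bd ν f = 0 → ∃ y : Finset V → LL Unit A,
        (∀ σ, y σ ≠ 0 → G.IsClique (σ : Set V) ∧ σ.card = i + 1) ∧
        (∀ σ, ∀ v ∈ σ, Kop (KK F ι hF v) (y σ) = 0) ∧ bd ν y = f := by
    intro f hf1 hf2 hf3
    have hf : IsMixModel G F ι i (fun T g => f T ((), g)) := by
      refine ⟨fun T g hne => ?_, fun T v hv hvF g => ?_, fun T => summable_LL (f T)⟩
      · apply hf1
        intro h0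
        apply hne
        rw [h0]
        rfl
      · have h1 := KK_sum (ι := ι) hF hvF (fun a => f T ((), a)) g
        have h2 := Kop_apply (KK F ι hF v) (f T) g
        have h3 : (Kop (KK F ι hF v)) (f T) ((), g) = 0 := by
          rw [hf2 T v hv]
          rfl
        exact (h1.symm.trans h2.symm).trans h3
    obtain ⟨y, hy1, hy2⟩ := hex ν hν (fun T g => f T ((), g)) hf (fun T g => by
      rw [← hev, hf3]
      rfl)
    choose Y hY using fun T => exists_LL (y T) (hy1.l2 T)
    refine ⟨Y, fun σ hσ => ?_, fun σ v hv => ?_, ?_⟩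
    · by_contra hc
      apply hσ
      apply ev_ext
      intro g
      show Y σ ((), g) = _
      rw [hY, map_zero]
      by_contra h0
      exact hc (hy1.supp σ g h0)
    · apply ev_ext
      intro g
      rw [map_zero]
      show Kop (KK F ι hF v) (Y σ) ((), g) = 0
      rw [Kop_apply]
      by_cases hvF : v ∈ F
      · simp only [hY]
        rw [KK_sum hF hvF]
        exact hy1.mean σ v hv hvF g
      · rw [KK_neg hF hvF, Multiset.map_zero, Multiset.sum_zero]
    · funext T
      apply ev_ext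
      intro g
      rw [hev]
      simp only [hY]
      exact hy2 T g
  have hb' : bdX (fun v => v ∈ F) t ν z = 0 := by
    funext T g
    rw [hbd, hb]
    rfl
  obtain ⟨y, hy, hyz⟩ := approx_mixed G (fun v => v ∈ F) (KK F ι hF) t
    (fun u v h hu hv => htt u v h hu hv) ht (fun v hv => KK_neg hF hv)
    (fun u v h hv k hk => KK_comm hF hct h hv k hk) ν hν
    (P := fun σ : Finset V => G.IsClique (σ : Set V) ∧ σ.card = i)
    (Q := fun σ => G.IsClique (σ : Set V) ∧ σ.card + 1 = i)
    (R := fun σ => G.IsClique (σ : Set V) ∧ σ.card = i + 1)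
    (fun τ v hv h => ⟨h.1.subset (by simp), by
      rw [← h.2, Finset.card_insert_of_notMem hv]⟩)
    (fun τ v hv h => ⟨h.1.subset (by simp), by
      have h2 := h.2
      rw [Finset.card_insert_of_notMem hv] at h2
      omega⟩)
    (fun _ h => h.1) (fun _ h => h.1) hE z hz' hb' ε hε
  refine ⟨y, ⟨hy.supp, fun T v hv hvF g => ?_, hy.l2⟩, ?_⟩
  · rw [← KK_sum hF hvF]
    exact hy.mean T v hv g
  · simp only [← hbd]
    exact hyz

theorem l2zeroMixMod_of_ex {V : Type} [DecidableEq V] [Fintype V] {A : Type} [Group A]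
    {H : V → Type} [∀ v, Group (H v)] {G : SimpleGraph V} {F : Finset V} {ι : ∀ v, H v →* A}
    {t : V → A} {i : ℕ} (hF : ∀ v ∈ F, Finite (H v))
    (hct : ∀ u v, G.Adj u v → u ∈ F → v ∉ F → ∀ x : H u, Commute (ι u x) (t v))
    (htt : ∀ u v, G.Adj u v → u ∉ F → v ∉ F → Commute (t u) (t v))
    (ht : ∀ v, v ∉ F → ∀ n : ℕ, 0 < n → t v ^ n ≠ 1)
    (hex : ∀ ν : V → ℕ, Function.Injective ν → ∀ z : Finset V → A → ℂ, IsMixModel G F ι i z →
      (∀ T g, bdMod ν z T g = 0) → ∃ y : Finset V → A → ℂ, IsMixModel G F ι (i + 1) y ∧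
        ∀ T g, bdMod ν y T g = z T g) : L2ZeroMixMod G F ι t i :=
  theta_main hF hct htt ht hex


end Pool.Agent.H93.BM
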