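import Pool.Agent.H93.BM.ExN
import Pool.Agent.H93.BM.Theta
import Pool.Agent.H85.DV.Mixed
import Pool.Agent.H65.BU.Two
import Pool.Agent.H8.BU.Q1

/-!
# Project BU V2: Q1 for graph products of infinite cyclic and of large finite groups
-/

set_option autoImplicit false

open Finset

namespace Pool.Agent.H93.BM

open Pool.Agent.H65.RA Pool.Agent.H65.RM Pool.Agent.H37.TM Pool.Agent.H85.DV Pool.Agent.H65.BU

/-- infinite cyclic groups: the powers of a generator are not trivial -/
theorem pow_ne_one {A : Type} [Group A] [Infinite A] {t : A}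
    (ht : ∀ x, x ∈ Subgroup.zpowers t) (n : ℕ) (hn : 0 < n) : t ^ n ≠ 1 := by
  intro h
  have h1 : IsOfFinOrder t := isOfFinOrder_iff_pow_eq_one.2 ⟨n, hn, h⟩
  have h2 : Finite (Subgroup.zpowers t) := (_root_.finite_zpowers.2 h1).to_subtype
  have h3 : Function.Surjective (fun x : Subgroup.zpowers t => (x : A)) :=
    fun x => ⟨⟨x, ht x⟩, rfl⟩
  exact not_finite_iff_infinite.2 inferInstance (Finite.of_surjective _ h3)

/-- **Theorem L2**, mixed vertex groups: if the reduced homology modulo two of all full subcomplexes of the flag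
complex vanishes in degree `i - 1`, then the reduced `ℓ²`-homology of the graph product vanishes in degree `i`. -/
theorem l2zeroMix_of_hz {V : Type} [Fintype V] [DecidableEq V] (G : SimpleGraph V) (F : Finset V)
    (Γ : V → Type) [∀ v, Group (Γ v)] (t : ∀ v, Γ v) (hF : ∀ v ∈ F, Finite (Γ v))
    (ht : ∀ v ∉ F, ∀ n : ℕ, 0 < n → t v ^ n ≠ 1) (i : ℕ)
    (hG : ∀ A : Finset V, HZ (G.comap (Subtype.val : {v // v ∉ A} → V)) i) :
    L2ZeroMix G F (fun v => (io G : Γ v →* GP G Γ)) (fun v => io G (t v)) i := by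
  have hct : ∀ u v, G.Adj u v → u ∈ F → v ∉ F → ∀ x : Γ u,
      Commute (io G x : GP G Γ) (io G (t v)) := fun u v h _ _ x => io_comm h x (t v)
  have htt : ∀ u v, G.Adj u v → u ∉ F → v ∉ F →
      Commute (io G (t u) : GP G Γ) (io G (t v)) := fun u v h _ _ => io_comm h (t u) (t v)
  have hct' : ∀ v, v ∉ F → ∀ n : ℕ, 0 < n → (io G (t v) : GP G Γ) ^ n ≠ 1 := by
    intro v hv n hn h
    have h1 := congrArg (pj G v) h
    rw [map_pow, pj_same, map_one] at h1
    exact ht v hv n hn h1
  refine l2zeroMix_of_mod hF (fun u v h _ _ a b => io_comm h a b) hct htt ?_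
  exact l2zeroMixMod_of_ex hF hct htt hct' fun ν hν z hz hb =>
    exM_of_ex G F Γ hF hν i (fun A => ex_of_hz_sub (hG A) ν hν) z hz hb

end Pool.Agent.H93.BM
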